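import Pool.Agent.helper11.WH.MM
import Pool.Agent.helper11.WH.IN
import Pool.Agent.helper63.WH.CN
import Pool.Agent.helper52.WH.GO
import Pool.Agent.helper76.WH.CA

set_option autoImplicit false

namespace Pool.Agent.helper11.WH

open Finset

theorem Good.sub {ι : Type*} {x y : ι → ℤ} {V : Finset ι} {Q : Finset (ι × ι)} {C F : Finset ι}
    (h : Good x y V Q C) (hF : F ⊆ C) : Good x y V Q F :=
  ⟨fun r hr => h.notV r (hF hr), fun r hr => h.crit r (hF hr), fun r hr w hw hwF => h.nc r (hF hr) w hw (hF hwF)⟩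

/-- a minimal point to the upper right -/
theorem GP_cov {ι : Type*} [Fintype ι] (x y : ι → ℤ) {p q : ι} (h1 : x p < x q) (h2 : y p < y q) :
    ∃ q', Cov x y (p, q') ∧ x q' ≤ x q ∧ y q' ≤ y q := by
  classical
  obtain ⟨q', hq', hmin⟩ := Finset.exists_min_image
    (univ.filter (fun s => x p < x s ∧ x s ≤ x q ∧ y p < y s ∧ y s ≤ y q)) x
    ⟨q, by simp only [Finset.mem_filter, Finset.mem_univ, true_and]; exact ⟨h1, le_rfl, h2, le_rfl⟩⟩
  simp only [Finset.mem_filter, Finset.mem_univ, true_and] at hq' hmin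
  refine ⟨q', ⟨hq'.1, hq'.2.2.1, ?_⟩, hq'.2.1, hq'.2.2.2⟩
  rintro s ⟨s1, s2, s3, s4⟩
  have := hmin s ⟨s1, by simp only at s2; omega, s3, by simp only at s4; omega⟩
  simp only at s2
  omega

theorem pairs_gp {ι : Type*} [Fintype ι] [DecidableEq ι] (x y : ι → ℤ)
    (hx : Function.Injective x) (hy : Function.Injective y) :
    ∃ Z : Finset (ℤ × ℤ), 1000 * Z.card ≤ 999 * Fintype.card ι ∧
      ∀ p q, x p < x q → y p < y q →
        ∃ z ∈ Z, x p ≤ z.1 ∧ z.1 ≤ x q ∧ y p ≤ z.2 ∧ z.2 ≤ y q := by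
  classical
  rcases Nat.eq_zero_or_pos (Fintype.card ι) with h0 | hn
  · refine ⟨∅, by simp, ?_⟩
    intro p
    exact ((Fintype.card_eq_zero_iff.mp h0).false p).elim
  choose Q hQ Z hZc hZ using fun V : Finset ι => minmax x y hx hy Vᶜ
  choose C hCg hCc using fun V : Finset ι => exists_good hx hy (hQ V)
  have hSE : ∀ V, (En V (Q V)).card = (St V (Q V)).card := by
    intro V
    have a1 := card_St (hQ V)
    have a2 := card_En (hQ V)
    omega
  obtain ⟨V, hV⟩ := counting hn C (fun V => St V (Q V)) (fun V => En V (Q V)) (fun V => (St V (Q V)).card)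
    (fun V => rfl) hSE
    (fun V => by
      rw [Finset.disjoint_left]
      intro r hr
      exact (hCg V).notV r hr)
    hCc
    (fun V₁ V₂ F₁ F₂ h1 h2 h3 h4 h5 => decode hx hy (hQ V₁) (hQ V₂) ((hCg V₁).sub h1) ((hCg V₂).sub h2) h5 h3 h4)
  refine ⟨V.image (fun i => (x i, y i)) ∪ Z V, ?_, ?_⟩
  · have a1 := card_St (hQ V)
    have a2 := Finset.card_union_le (V.image (fun i => (x i, y i))) (Z V)
    have a3 := Finset.card_image_le (s := V) (f := fun i => (x i, y i))
    have a4 := hZc V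
    have a5 := Finset.card_add_card_compl V
    omega
  · intro p q h1 h2
    obtain ⟨q', hc, hq1, hq2⟩ := GP_cov x y h1 h2
    have c1 : x p < x q' := hc.1
    have c2 : y p < y q' := hc.2.1
    by_cases hp : p ∈ V
    · exact ⟨(x p, y p), Finset.mem_union_left _ (Finset.mem_image_of_mem _ hp), le_rfl, h1.le, le_rfl, h2.le⟩
    by_cases hq : q' ∈ V
    · exact ⟨(x q', y q'), Finset.mem_union_left _ (Finset.mem_image_of_mem (fun i => (x i, y i)) hq), c1.le, hq1, c2.le, hq2⟩
    obtain ⟨z, hz, b1, b2, b3, b4⟩ := hZ V p (by simpa using hp) q' (by simpa using hq) hc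
    simp only at b1 b2 b3 b4
    exact ⟨z, Finset.mem_union_right _ hz, b1, by omega, b3, by omega⟩

end Pool.Agent.helper11.WH
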